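import Pool.Agent.H84.FK.Targets

/-!
# Module BUR (board fk_modules, MP_85c4d1_al): Burnside's normal p-complement theorem
-/

namespace Pool.Agent.H92.FK

open Pool.Agent.H84.FK

theorem pf_bur : T_BUR := by
  intro G _ _ p hp P hP hi hc
  have : Fact p.Prime := ⟨hp⟩
  let S : Sylow p G := hP.toSylow hi
  have hS : (S : Subgroup G) = P := rfl
  have hN : Subgroup.normalizer ((S : Subgroup G) : Set G) ≤
      Subgroup.centralizer ((S : Subgroup G) : Set G) := by
    intro g hg
    rw [Subgroup.mem_centralizer_iff]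
    intro x hx
    refine (hc g (fun y hy => ?_) x hx).symm
    exact (Subgroup.mem_normalizer_iff.1 hg y).1 hy
  refine ⟨(MonoidHom.transferSylow S hN).ker, inferInstance, fun x hx => ?_, fun x hxP hxK => ?_⟩
  · rw [MonoidHom.mem_ker]
    obtain ⟨k, hk⟩ := hP (MonoidHom.transferSylow S hN x)
    have h1 : orderOf (MonoidHom.transferSylow S hN x) ∣ p ^ k := orderOf_dvd_of_pow_eq_one hk
    have h2 : orderOf (MonoidHom.transferSylow S hN x) ∣ orderOf x := orderOf_map_dvd _ x
    have h3 : Nat.Coprime (orderOf x) (p ^ k) :=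
      Nat.Coprime.pow_right k ((Nat.Prime.coprime_iff_not_dvd hp).2 hx).symm
    have h4 : orderOf (MonoidHom.transferSylow S hN x) ∣ 1 := by
      rw [← h3]
      exact Nat.dvd_gcd h2 h1
    exact orderOf_eq_one_iff.1 (Nat.dvd_one.1 h4)
  · have h := MonoidHom.ker_transferSylow_disjoint S hN P hP
    rw [disjoint_iff] at h
    have : x ∈ (MonoidHom.transferSylow S hN).ker ⊓ P := ⟨hxK, hxP⟩
    rw [h] at this
    exact this

end Pool.Agent.H92.FK
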