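import Pool.Agent.H84.FK.Targets2

/-!
# Module FA (board fk2_modules, MP_85c4d1_al)
-/

namespace Pool.Agent.H92.FKFA

open Pool.Agent.H84.FK

theorem pf_fa (hFG : T_FG) : T_FA := by
  intro G _ _ hsol V hV hp
  have h1 : Subgroup.centralizer (V.normalCore : Set G) ≤ V.normalCore := by
    refine hFG G hsol V.normalCore inferInstance (fun r hr N hN hNp => ?_)
    have := hp r hr N hN hNp
    exact Subgroup.normal_le_normalCore.2 this
  have h2 : V ≤ Subgroup.centralizer (V.normalCore : Set G) := by
    intro x hx
    rw [Subgroup.mem_centralizer_iff]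
    intro y hy
    exact hV y (Subgroup.normalCore_le V hy) x hx
  have h3 : V = V.normalCore := le_antisymm (h2.trans h1) (Subgroup.normalCore_le V)
  rw [h3]
  infer_instance

end Pool.Agent.H92.FKFA
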