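import Pool.Agent.H84.FK.Targets2

/-!
# Module FG (board fk2_modules, MP_85c4d1_al)
-/

namespace Pool.Agent.H92.FKFG

open Pool.Agent.H84.FK
open scoped commutatorElement

/-- a subgroup `E` with `[E, E]` central in `E` is nilpotent -/
theorem nilp {G : Type} [Group G] (E : Subgroup G)
    (h : ∀ a ∈ E, ∀ b ∈ E, ∀ c ∈ E, ⁅a, b⁆ * c = c * ⁅a, b⁆) : Group.IsNilpotent E := by
  rw [Subgroup.nilpotent_iff_lowerCentralSeries]
  refine ⟨2, ?_⟩
  have hc : (⊤ : Subgroup E).lowerCentralSeries 1 ≤ Subgroup.center E := by
    change ⁅(⊤ : Subgroup E), (⊤ : Subgroup E)⁆ ≤ _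
    rw [Subgroup.commutator_le]
    intro a _ b _
    rw [Subgroup.mem_center_iff]
    intro c
    apply Subtype.ext
    have := h a a.2 b b.2 c c.2
    simpa [commutatorElement_def] using this.symm
  rw [eq_bot_iff]
  change ⁅(⊤ : Subgroup E).lowerCentralSeries 1, (⊤ : Subgroup E)⁆ ≤ ⊥
  rw [Subgroup.commutator_le]
  intro x hx y _
  have := Subgroup.mem_center_iff.1 (hc hx) y
  rw [Subgroup.mem_bot, commutatorElement_eq_one_iff_mul_comm]
  exact this.symm

/-- an element all of whose powers of prime power order lie in `F` lies in `F` -/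
theorem mem_of_pp {G : Type} [Group G] [Finite G] (F : Subgroup G) (x : G)
    (h : ∀ (r : ℕ), r.Prime → ∀ y ∈ Subgroup.zpowers x, (∃ k : ℕ, y ^ (r ^ k) = 1) → y ∈ F) :
    x ∈ F := by
  have key : ∀ n : ℕ, 0 < n → ∀ z ∈ Subgroup.zpowers x, orderOf z = n → z ∈ F := by
    intro n
    induction n using Nat.recOnPosPrimePosCoprime with
    | prime_pow p k hp hk =>
      intro _ z hz ho
      exact h p hp z hz ⟨k, by rw [← ho]; exact pow_orderOf_eq_one z⟩
    | zero => intro h0; omega
    | one =>
      intro _ z _ ho
      rw [orderOf_eq_one_iff.1 ho]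
      exact F.one_mem
    | coprime a b ha hb hab iha ihb =>
      intro _ z hz ho
      have e1 : z ^ a ∈ F := by
        refine ihb (by omega) (z ^ a) (Subgroup.pow_mem _ hz a) ?_
        rw [orderOf_pow, ho, Nat.gcd_eq_right (Dvd.intro b rfl)]
        exact Nat.mul_div_cancel_left b (by omega)
      have e2 : z ^ b ∈ F := by
        refine iha (by omega) (z ^ b) (Subgroup.pow_mem _ hz b) ?_
        rw [orderOf_pow, ho, Nat.gcd_eq_right (Dvd.intro_left a rfl)]
        exact Nat.mul_div_cancel a (by omega)
      have hbz : (Int.gcd a b : ℤ) = a * Int.gcdA a b + b * Int.gcdB a b := Int.gcd_eq_gcd_ab a b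
      have hg : (Int.gcd a b : ℤ) = 1 := by
        have : Int.gcd (a : ℤ) b = Nat.gcd a b := rfl
        rw [this, hab]; rfl
      have : z = (z ^ a) ^ (Int.gcdA a b) * (z ^ b) ^ (Int.gcdB a b) := by
        rw [← zpow_natCast z a, ← zpow_natCast z b, ← zpow_mul, ← zpow_mul, ← zpow_add,
          ← hbz, hg, zpow_one]
      rw [this]
      exact F.mul_mem (F.zpow_mem e1 _) (F.zpow_mem e2 _)
  exact key (orderOf x) (orderOf_pos x) x (Subgroup.mem_zpowers x) rfl

theorem pf_fg : T_FG := by
  intro G _ _ hsol F hF hp
  set C := Subgroup.centralizer (F : Set G) with hC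
  have hCn : C.Normal := by rw [hC]; infer_instance
  let D : ℕ → Subgroup G := fun i => C ⊓ derivedSeries G i
  have hDn : ∀ i, (D i).Normal := fun i => by
    have : (derivedSeries G i).Normal := derivedSeries_normal G i
    exact Subgroup.normal_inf_normal C (derivedSeries G i)
  obtain ⟨n, hn⟩ := hsol.solvable
  have key : ∀ m : ℕ, D m ≤ F := by
    have down : ∀ i, D (i + 1) ≤ F → D i ≤ F := by
      intro i hi x hx
      have hNil : Group.IsNilpotent (D i) := by
        refine nilp (D i) (fun a ha b hb c hc => ?_)
        have hab : ⁅a, b⁆ ∈ F := hi ⟨by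
            have : ⁅a, b⁆ ∈ ⁅C, C⁆ := Subgroup.commutator_mem_commutator ha.1 hb.1
            exact Subgroup.commutator_le_self C this, by
            rw [derivedSeries_succ]
            exact Subgroup.commutator_mem_commutator ha.2 hb.2⟩
        have := Subgroup.mem_centralizer_iff.1 hc.1 _ hab
        exact this
      have hDi : (D i).Normal := hDn i
      refine mem_of_pp F x (fun r hr y hy hk => ?_)
      have : Fact r.Prime := ⟨hr⟩
      have hyD : y ∈ D i := by
        have : Subgroup.zpowers x ≤ D i := by
          rw [Subgroup.zpowers_le]; exact hx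
        exact this hy
      -- the Sylow subgroup of `D i`
      obtain ⟨k, hk⟩ := hk
      have hpy : IsPGroup r (Subgroup.zpowers (⟨y, hyD⟩ : D i)) := by
        rintro ⟨w, hw⟩
        obtain ⟨j, rfl⟩ := Subgroup.mem_zpowers_iff.1 hw
        refine ⟨k, ?_⟩
        apply Subtype.ext
        apply Subtype.ext
        simp only [SubmonoidClass.coe_pow, SubgroupClass.coe_zpow, OneMemClass.coe_one]
        rw [← zpow_natCast, ← zpow_mul, mul_comm, zpow_mul, zpow_natCast, hk, one_zpow]
      obtain ⟨Q, hQ⟩ := hpy.exists_le_sylow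
      have hQn : (Q : Subgroup (D i)).Normal := inferInstance
      have hQc : (Q : Subgroup (D i)).Characteristic := Sylow.characteristic_of_normal Q hQn
      have hN : ((Q : Subgroup (D i)).map (D i).subtype).Normal := inferInstance
      have hNp : IsPGroup r ((Q : Subgroup (D i)).map (D i).subtype) := Q.isPGroup'.map _
      refine hp r hr _ hN hNp ?_
      exact ⟨⟨y, hyD⟩, hQ (Subgroup.mem_zpowers _), rfl⟩
    have hbot : ∀ j, D (n + j) ≤ F := fun j => by
      have : D (n + j) ≤ ⊥ := by
        refine le_trans inf_le_right ?_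
        rw [← hn]
        exact derivedSeries_antitone G (Nat.le_add_right n j)
      exact this.trans bot_le
    intro m
    have : ∀ d, D (n - d) ≤ F := by
      intro d
      induction d with
      | zero => exact hbot 0
      | succ d ih =>
        by_cases hd : d < n
        · have e : n - d = (n - (d + 1)) + 1 := by omega
          rw [e] at ih
          exact down _ ih
        · have e : n - (d + 1) = n - d := by omega
          rw [e]; exact ih
    by_cases hm : m ≤ n
    · have e : m = n - (n - m) := by omega
      rw [e]; exact this _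
    · have e : m = n + (m - n) := by omega
      rw [e]; exact hbot _
  have h0 := key 0
  have : D 0 = C := by simp [D]
  rwa [this] at h0

end Pool.Agent.H92.FKFG
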